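import Mathlib

/-!
# Mappings with parametric representation on the unit bidisc

Definitions of normal Loewner chains on the unit bidisc, of the class `S0` of maps with parametric
representation and of its bounded subclasses `S0M M`, and the fact that the shears
`(z₁ + a z₂², z₂)` with `|a| ≤ 1` belong to `S0`.
-/

set_option autoImplicit false

namespace Pool.Agent.V1173.Bidisc

open Set Metric Filter Topology

/-- The open unit bidisc, i.e. the open unit ball of `ℂ × ℂ` for the maximum norm. -/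
def U2 : Set (ℂ × ℂ) := ball 0 1

/-- A normal Loewner chain on the bidisc: each `f t`, `t ≥ 0`, is holomorphic and injective on the
bidisc, fixes the origin, has differential `e^t I` there, the images increase with `t`, and the
family `e^{-t} f t` is normal: every sequence in it has a locally uniformly convergent
subsequence. -/
structure IsNormalLoewnerChain (f : ℝ → ℂ × ℂ → ℂ × ℂ) : Prop where
  holomorphic : ∀ t, 0 ≤ t → DifferentiableOn ℂ (f t) U2
  injective : ∀ t, 0 ≤ t → InjOn (f t) U2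
  map_zero : ∀ t, 0 ≤ t → f t 0 = 0
  fderiv_zero : ∀ t, 0 ≤ t →
    HasFDerivAt (f t) ((Real.exp t : ℂ) • ContinuousLinearMap.id ℂ (ℂ × ℂ)) 0
  subordination : ∀ s t, 0 ≤ s → s ≤ t → f s '' U2 ⊆ f t '' U2
  normal : ∀ τ : ℕ → ℝ, (∀ n, 0 ≤ τ n) → ∃ φ : ℕ → ℕ, StrictMono φ ∧ ∃ g : ℂ × ℂ → ℂ × ℂ,
    TendstoLocallyUniformlyOn
      (fun n z => (Real.exp (-(τ (φ n))) : ℂ) • f (τ (φ n)) z) g atTop U2

/-- The class `S⁰(U²)` of maps with parametric representation on the bidisc: the first elements of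
normal Loewner chains (only the values on the bidisc matter). -/
def S0 : Set (ℂ × ℂ → ℂ × ℂ) :=
  {g | ∃ f : ℝ → ℂ × ℂ → ℂ × ℂ, IsNormalLoewnerChain f ∧ ∀ z ∈ U2, g z = f 0 z}

/-- The class `S⁰(U², M)`: the members of `S⁰(U²)` bounded by `M` in the maximum norm. -/
def S0M (M : ℝ) : Set (ℂ × ℂ → ℂ × ℂ) := {g | g ∈ S0 ∧ ∀ z ∈ U2, ‖g z‖ ≤ M}

/-- The shear `(z₁ + a z₂², z₂)`. -/
def shear (a : ℝ) (z : ℂ × ℂ) : ℂ × ℂ := (z.1 + (a : ℂ) * z.2 ^ 2, z.2)

theorem mem_U2 {z : ℂ × ℂ} : z ∈ U2 ↔ ‖z.1‖ < 1 ∧ ‖z.2‖ < 1 := by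
  simp [U2, Prod.norm_def]

theorem hasFDerivAt_shear (a : ℝ) :
    HasFDerivAt (shear a) (ContinuousLinearMap.id ℂ (ℂ × ℂ)) 0 := by
  have h1 : HasFDerivAt (fun z : ℂ × ℂ => z.1) (ContinuousLinearMap.fst ℂ ℂ ℂ) 0 :=
    hasFDerivAt_fst
  have h2 : HasFDerivAt (fun z : ℂ × ℂ => z.2) (ContinuousLinearMap.snd ℂ ℂ ℂ) 0 :=
    hasFDerivAt_snd
  have h3 := (h2.pow 2).const_mul (a : ℂ)
  have h4 := (h1.add h3).prodMk h2
  have h5 : (ContinuousLinearMap.id ℂ (ℂ × ℂ)) =
      ((ContinuousLinearMap.fst ℂ ℂ ℂ +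
        (a : ℂ) • ((2 : ℕ) • (0 : ℂ × ℂ).2 ^ (2 - 1)) • ContinuousLinearMap.snd ℂ ℂ ℂ).prod
        (ContinuousLinearMap.snd ℂ ℂ ℂ)) := by
    ext <;> simp
  rw [h5]
  refine h4.congr_of_eventuallyEq ?_
  exact Eventually.of_forall fun z => rfl

theorem differentiable_shear (a : ℝ) : Differentiable ℂ (shear a) := by
  unfold shear
  fun_prop

theorem injective_shear (a : ℝ) : Function.Injective (shear a) := by
  intro z w h
  simp only [shear, Prod.mk.injEq] at h
  obtain ⟨h1, h2⟩ := h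
  rw [h2] at h1
  exact Prod.ext (add_right_cancel h1) h2

/-- The images `e^t (shear a) (U²)` increase when `|a| ≤ 1`: the shear is starlike. -/
theorem shear_starlike {a : ℝ} (ha : |a| ≤ 1) {r : ℝ} (hr : 0 < r) (hr1 : r ≤ 1) {z : ℂ × ℂ}
    (hz : z ∈ U2) : ∃ z' ∈ U2, shear a z' = (r : ℂ) • shear a z := by
  refine ⟨((r : ℂ) * (z.1 + (a : ℂ) * (1 - r) * z.2 ^ 2), (r : ℂ) * z.2), ?_, ?_⟩
  · rw [mem_U2] at hz ⊢
    obtain ⟨h1, h2⟩ := hz
    constructor
    · have e1 : ‖(a : ℂ) * (1 - r) * z.2 ^ 2‖ ≤ 1 - r := by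
        rw [norm_mul, norm_mul, norm_pow]
        have h3 : ‖(1 - r : ℂ)‖ = 1 - r := by
          rw [show (1 - r : ℂ) = ((1 - r : ℝ) : ℂ) by push_cast; ring, Complex.norm_real,
            Real.norm_of_nonneg (by linarith)]
        rw [h3, Complex.norm_real, Real.norm_eq_abs]
        have h4 : ‖z.2‖ ^ 2 ≤ 1 := pow_le_one₀ (norm_nonneg _) h2.le
        have h5 : |a| * (1 - r) ≤ 1 - r := by nlinarith
        have h6 : 0 ≤ |a| * (1 - r) := mul_nonneg (abs_nonneg _) (by linarith)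
        nlinarith
      have e2 : ‖(r : ℂ) * (z.1 + (a : ℂ) * (1 - r) * z.2 ^ 2)‖ < r * (1 + (1 - r)) := by
        rw [norm_mul, Complex.norm_real, Real.norm_of_nonneg hr.le]
        refine mul_lt_mul_of_pos_left ?_ hr
        refine (norm_add_le _ _).trans_lt ?_
        linarith
      refine e2.trans_le ?_
      nlinarith [sq_nonneg (r - 1)]
    · simp only [norm_mul, Complex.norm_real, Real.norm_of_nonneg hr.le]
      nlinarith [norm_nonneg z.2]
  · simp only [shear, Prod.smul_mk, smul_eq_mul, Prod.mk.injEq]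
    constructor
    · ring
    · trivial

theorem shear_mem_S0 {a : ℝ} (ha : |a| ≤ 1) : shear a ∈ S0 := by
  refine ⟨fun t z => (Real.exp t : ℂ) • shear a z, ?_, ?_⟩
  · refine ⟨?_, ?_, ?_, ?_, ?_, ?_⟩
    · intro t _
      exact ((differentiable_shear a).const_smul (Real.exp t : ℂ)).differentiableOn
    · intro t _ z _ w _ h
      have h0 : (Real.exp t : ℂ) ≠ 0 := by exact_mod_cast (Real.exp_pos t).ne'
      exact injective_shear a (smul_right_injective _ h0 h)
    · intro t _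
      simp [shear]
    · intro t _
      exact (hasFDerivAt_shear a).const_smul (Real.exp t : ℂ)
    · rintro s t hs hst _ ⟨z, hz, rfl⟩
      obtain ⟨z', hz', h⟩ := shear_starlike ha (Real.exp_pos (s - t))
        (Real.exp_le_one_iff.2 (by linarith)) hz
      refine ⟨z', hz', ?_⟩
      simp only [h, smul_smul]
      congr 1
      rw [← Complex.ofReal_mul, ← Real.exp_add]
      congr 2
      ring
    · intro τ _
      refine ⟨id, strictMono_id, shear a, ?_⟩
      have h : (fun (n : ℕ) (z : ℂ × ℂ) =>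
          (Real.exp (-(τ (id n))) : ℂ) • ((Real.exp (τ (id n)) : ℂ) • shear a z)) =
          fun _ z => shear a z := by
        funext n z
        rw [smul_smul, ← Complex.ofReal_mul, ← Real.exp_add]
        simp
      simp only [h]
      intro u hu x hx
      exact ⟨univ, univ_mem, Eventually.of_forall fun n y _ => refl_mem_uniformity hu⟩
  · intro z _
    simp

theorem norm_shear_le (a : ℝ) {z : ℂ × ℂ} (hz : z ∈ U2) : ‖shear a z‖ ≤ 1 + |a| := by
  rw [mem_U2] at hz
  obtain ⟨h1, h2⟩ := hz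
  rw [Prod.norm_def, max_le_iff]
  constructor
  · refine (norm_add_le _ _).trans ?_
    rw [norm_mul, norm_pow, Complex.norm_real, Real.norm_eq_abs]
    have h4 : ‖z.2‖ ^ 2 ≤ 1 := pow_le_one₀ (norm_nonneg _) h2.le
    have h5 : |a| * ‖z.2‖ ^ 2 ≤ |a| := mul_le_of_le_one_right (abs_nonneg _) h4
    linarith
  · have := abs_nonneg a
    simp only [shear]
    linarith

theorem shear_mem_S0M {a M : ℝ} (ha : |a| ≤ 1) (haM : 1 + |a| ≤ M) : shear a ∈ S0M M :=
  ⟨shear_mem_S0 ha, fun _ hz => (norm_shear_le a hz).trans haM⟩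

end Pool.Agent.V1173.Bidisc
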