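import Mathlib

/-!
# The variation of a continuously differentiable curve dominates its length
-/

set_option autoImplicit false

open MeasureTheory Set Filter Topology

namespace Pool.Agent.V1173

theorem length_le_variation {g g' : ℝ → ℂ} {b : ℝ} (hb : 0 < b)
    (hd : ∀ t ∈ Icc (0 : ℝ) b, HasDerivAt g (g' t) t) (hc : ContinuousOn g' (Icc 0 b))
    (hV : eVariationOn g (Icc 0 b) ≠ ⊤) :
    ∫ t in (0 : ℝ)..b, ‖g' t‖ ≤ (eVariationOn g (Icc 0 b)).toReal := by
  refine le_of_forall_pos_le_add fun η hη => ?_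
  obtain ⟨ε, hε, hεη⟩ : ∃ ε : ℝ, 0 < ε ∧ 2 * ε * b ≤ η := by
    refine ⟨η / (2 * b), by positivity, le_of_eq ?_⟩
    field_simp
  have huc := isCompact_Icc.uniformContinuousOn_of_continuous hc
  rw [Metric.uniformContinuousOn_iff] at huc
  obtain ⟨δ, hδ, huc⟩ := huc ε hε
  obtain ⟨N, hN⟩ := exists_nat_gt (b / δ)
  have hN0 : 0 < N := by
    have : (0 : ℝ) < N := lt_trans (by positivity) hN
    exact_mod_cast this
  have hN0' : (0 : ℝ) < N := by exact_mod_cast hN0
  have hstep : b / N < δ := by
    rw [div_lt_iff₀ hN0']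
    rw [div_lt_iff₀ hδ] at hN
    linarith
  set u : ℕ → ℝ := fun i => i * (b / N) with hu
  have hu0 : u 0 = 0 := by simp [hu]
  have huN : u N = b := by
    simp only [hu]
    field_simp
  have hus : ∀ i, u (i + 1) - u i = b / N := by
    intro i
    simp only [hu]
    push_cast
    ring
  have humono : Monotone u := by
    intro i j hij
    simp only [hu]
    have : (i : ℝ) ≤ j := by exact_mod_cast hij
    have h0 : 0 ≤ b / N := by positivity
    exact mul_le_mul_of_nonneg_right this h0
  have humem : ∀ i ≤ N, u i ∈ Icc (0 : ℝ) b := by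
    intro i hi
    refine ⟨?_, ?_⟩
    · rw [← hu0]; exact humono (Nat.zero_le i)
    · rw [← huN]; exact humono hi
  -- one piece
  have piece : ∀ i < N, ∫ t in (u i)..(u (i + 1)), ‖g' t‖ ≤
      ‖g (u (i + 1)) - g (u i)‖ + 2 * ε * (b / N) := by
    intro i hi
    have hs := humem i hi.le
    have ht := humem (i + 1) hi
    have hst : u i ≤ u (i + 1) := humono (Nat.le_succ i)
    have hsub : Icc (u i) (u (i + 1)) ⊆ Icc 0 b := Icc_subset_Icc hs.1 ht.2
    have hsub' : uIcc (u i) (u (i + 1)) ⊆ Icc 0 b := by rw [uIcc_of_le hst]; exact hsub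
    have hclose : ∀ t ∈ Icc (u i) (u (i + 1)), ‖g' t - g' (u i)‖ ≤ ε := by
      intro t htt
      have h1 := huc t (hsub htt) (u i) hs (by
        rw [Real.dist_eq, abs_of_nonneg (by linarith [htt.1])]
        have := hus i
        linarith [htt.2])
      rw [dist_eq_norm] at h1
      exact h1.le
    have hint : IntervalIntegrable g' volume (u i) (u (i + 1)) :=
      (hc.mono hsub').intervalIntegrable
    have hftc : ∫ t in (u i)..(u (i + 1)), g' t = g (u (i + 1)) - g (u i) :=
      intervalIntegral.integral_eq_sub_of_hasDerivAt (fun t ht => hd t (hsub' ht)) hint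
    have h2 : ‖(g (u (i + 1)) - g (u i)) - (u (i + 1) - u i) • g' (u i)‖ ≤ ε * (b / N) := by
      rw [← hftc, ← intervalIntegral.integral_const (g' (u i)),
        ← intervalIntegral.integral_sub hint (by simp)]
      have h3 := intervalIntegral.norm_integral_le_of_norm_le_const
        (a := u i) (b := u (i + 1)) (f := fun t => g' t - g' (u i)) (C := ε) (by
          intro t ht
          rw [uIoc_of_le hst] at ht
          exact hclose t ⟨ht.1.le, ht.2⟩)
      rw [abs_of_nonneg (by linarith), hus i] at h3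
      exact h3
    have h4 : ∫ t in (u i)..(u (i + 1)), ‖g' t‖ ≤ (‖g' (u i)‖ + ε) * (b / N) := by
      have h5 : ∫ t in (u i)..(u (i + 1)), ‖g' t‖ ≤
          ∫ t in (u i)..(u (i + 1)), (‖g' (u i)‖ + ε) := by
        refine intervalIntegral.integral_mono_on hst hint.norm (by simp) fun t ht => ?_
        have h6 := hclose t ht
        have h7 : ‖g' t‖ ≤ ‖g' (u i)‖ + ‖g' t - g' (u i)‖ := by
          have : g' t = g' (u i) + (g' t - g' (u i)) := by ring
          calc ‖g' t‖ = ‖g' (u i) + (g' t - g' (u i))‖ := by rw [← this]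
            _ ≤ _ := norm_add_le _ _
        linarith
      rw [intervalIntegral.integral_const, hus i, smul_eq_mul] at h5
      linarith
    have h8 : ‖(u (i + 1) - u i) • g' (u i)‖ = ‖g' (u i)‖ * (b / N) := by
      rw [norm_smul, hus i, Real.norm_of_nonneg (by positivity)]
      ring
    have h9 : ‖(u (i + 1) - u i) • g' (u i)‖ ≤ ‖g (u (i + 1)) - g (u i)‖ + ε * (b / N) := by
      have e : (u (i + 1) - u i) • g' (u i) = (g (u (i + 1)) - g (u i)) -
          ((g (u (i + 1)) - g (u i)) - (u (i + 1) - u i) • g' (u i)) := by ring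
      calc _ = ‖(g (u (i + 1)) - g (u i)) -
          ((g (u (i + 1)) - g (u i)) - (u (i + 1) - u i) • g' (u i))‖ := by rw [← e]
        _ ≤ _ := (norm_sub_le _ _).trans (by linarith)
    have e : (‖g' (u i)‖ + ε) * (b / N) = ‖g' (u i)‖ * (b / N) + ε * (b / N) := by ring
    rw [h8] at h9
    linarith
  have hsum : ∫ t in (0 : ℝ)..b, ‖g' t‖ = ∑ i ∈ Finset.range N, ∫ t in (u i)..(u (i + 1)), ‖g' t‖ := by
    rw [intervalIntegral.sum_integral_adjacent_intervals, hu0, huN]
    intro i hi
    refine ((hc.mono ?_).intervalIntegrable).norm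
    rw [uIcc_of_le (humono (Nat.le_succ i))]
    exact Icc_subset_Icc (humem i (le_of_lt hi)).1 (humem (i + 1) hi).2
  have hvar : ∑ i ∈ Finset.range N, ‖g (u (i + 1)) - g (u i)‖ ≤
      (eVariationOn g (Icc 0 b)).toReal := by
    have h1 : ∑ i ∈ Finset.range N, edist (g (u (i + 1))) (g (u i)) ≤ eVariationOn g (Icc 0 b) :=
      eVariationOn.sum_le_of_monotoneOn_Iic (humono.monotoneOn _) (fun i hi => humem i hi)
    have h2 : (∑ i ∈ Finset.range N, edist (g (u (i + 1))) (g (u i))).toReal =
        ∑ i ∈ Finset.range N, ‖g (u (i + 1)) - g (u i)‖ := by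
      rw [ENNReal.toReal_sum (fun i _ => edist_ne_top _ _)]
      refine Finset.sum_congr rfl fun i _ => ?_
      rw [edist_dist, ENNReal.toReal_ofReal dist_nonneg, dist_eq_norm]
    rw [← h2]
    exact ENNReal.toReal_mono hV h1
  rw [hsum]
  calc ∑ i ∈ Finset.range N, ∫ t in (u i)..(u (i + 1)), ‖g' t‖
      ≤ ∑ i ∈ Finset.range N, (‖g (u (i + 1)) - g (u i)‖ + 2 * ε * (b / N)) :=
        Finset.sum_le_sum fun i hi => piece i (Finset.mem_range.1 hi)
    _ = ∑ i ∈ Finset.range N, ‖g (u (i + 1)) - g (u i)‖ + 2 * ε * b := by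
        rw [Finset.sum_add_distrib, Finset.sum_const, Finset.card_range, nsmul_eq_mul]
        congr 1
        field_simp
    _ ≤ _ := by linarith

end Pool.Agent.V1173
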